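import Pool.Agent.Q140.LIN.Expo

/-!
# A calculus of computations without divisions, and deterministic trees
-/

set_option autoImplicit false

namespace Pool.Agent.Q140.EQN

open Pool.Agent.W966.Vg Pool.Agent.Q140.LIN Pool.Agent.H515R2.MMR

section defs

variable {K ι : Type}

/-- The tree is deterministic: it does not guess, and it does not choose. -/
def Det : NTree K ι → Prop
  | .accept => True
  | .reject => True
  | .mul _ _ next => Det next
  | .div _ _ next => Det next
  | .guess _ => False
  | .test _ yes no => Det yes ∧ Det no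
  | .choose _ _ => False

/-- The largest number of multiplications and divisions on a branch of the tree. -/
def cost : NTree K ι → ℕ
  | .accept => 0
  | .reject => 0
  | .mul _ _ next => cost next + 1
  | .div _ _ next => cost next + 1
  | .guess next => cost next
  | .test _ yes no => max (cost yes) (cost no)
  | .choose _ next => Finset.univ.sup fun i => cost (next i)

end defs

section trees

variable {K ι : Type} [Field K] [Fintype ι]

omit [Field K] [Fintype ι] in
lemma det_testAll (os : List (LF K ι)) : Det (testAll os) ∧ cost (testAll os) = 0 := by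
  induction os with
  | nil => exact ⟨trivial, rfl⟩
  | cons o os ih =>
    refine ⟨⟨ih.1, trivial⟩, ?_⟩
    show max (cost (testAll os)) 0 = 0
    rw [ih.2]; rfl

omit [Field K] [Fintype ι] in
lemma det_buildL (a b : ℕ → LF K ι) (os : List (LF K ι)) : ∀ k l : ℕ,
    Det (buildL a b os l k) ∧ cost (buildL a b os l k) = k := by
  intro k
  induction k with
  | zero => intro l; exact det_testAll os
  | succ k ih =>
    intro l
    refine ⟨(ih (l + 1)).1, ?_⟩
    show cost (buildL a b os (l + 1) k) + 1 = k + 1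
    rw [(ih (l + 1)).2]

end trees

section calculus

variable {K ι V W : Type} [Field K] [Fintype ι]

/-- The family of functions can be computed with `M` multiplications. -/
def Cm (M : ℕ) (F : V → (ι → K) → K) : Prop :=
  ∃ (a b : ℕ → LF K ι) (o : V → LF K ι), ∀ x, ∃ G : ℕ → K,
    (∀ r < M, G r = (a r).val x r G * (b r).val x r G) ∧ ∀ v, (o v).val x M G = F v x

lemma Cm.congr {M : ℕ} {F F' : V → (ι → K) → K} (h : Cm M F) (hF : ∀ v x, F' v x = F v x) :
    Cm M F' := by
  obtain ⟨a, b, o, H⟩ := h
  refine ⟨a, b, o, fun x => ?_⟩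
  obtain ⟨G, h1, h2⟩ := H x
  exact ⟨G, h1, fun v => (h2 v).trans (hF v x).symm⟩

lemma Cm.sub {M : ℕ} {F : V → (ι → K) → K} (h : Cm M F) (f : W → V) : Cm M fun w => F (f w) := by
  obtain ⟨a, b, o, H⟩ := h
  refine ⟨a, b, fun w => o (f w), fun x => ?_⟩
  obtain ⟨G, h1, h2⟩ := H x
  exact ⟨G, h1, fun v => h2 (f v)⟩

/-- Affine functions. -/
lemma Cm.aff {F : V → (ι → K) → K} (h : ∀ v, IsAff (F v)) : Cm 0 F := by
  choose φ _ hφ using fun v => (h v).lf
  exact ⟨fun _ => ⟨0, 0, 0⟩, fun _ => ⟨0, 0, 0⟩, φ, fun x => ⟨0, fun r hr =>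
    absurd hr (Nat.not_lt_zero r), fun v => hφ v x 0 0⟩⟩

/-- the linear combination which uses only the first `M` results -/
def tr (M : ℕ) (f : LF K ι) : LF K ι := ⟨f.c, f.x, fun s => if s < M then f.r s else 0⟩

omit [Field K] in
lemma tr_val [Field K] (M : ℕ) (f : LF K ι) (x : ι → K) {r : ℕ} (hr : M ≤ r) (G G' : ℕ → K)
    (h : ∀ s < M, G' s = G s) : (tr M f).val x r G' = f.val x M G := by
  unfold LF.val tr
  congr 1
  rw [← Finset.sum_subset (Finset.range_mono hr)]
  · refine Finset.sum_congr rfl fun s hs => ?_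
    have hs' := Finset.mem_range.mp hs
    simp only [if_pos hs', h s hs']
  · intro s _ hs
    rw [Finset.mem_range] at hs
    simp only [if_neg hs, map_zero, zero_mul]

/-- Products. -/
lemma Cm.prod {M m : ℕ} {F : V → (ι → K) → K} (h : Cm M F) (P Q : Fin m → V) :
    Cm (M + m) (Sum.elim F fun (j : Fin m) x => F (P j) x * F (Q j) x) := by
  obtain ⟨a, b, o, H⟩ := h
  refine ⟨fun r => if r < M then a r else if h : r - M < m then tr M (o (P ⟨r - M, h⟩)) else
      ⟨0, 0, 0⟩, fun r => if r < M then b r else if h : r - M < m then tr M (o (Q ⟨r - M, h⟩)) else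
      ⟨0, 0, 0⟩, Sum.elim (fun v => tr M (o v)) fun j => ⟨0, 0, Pi.single (M + j) 1⟩,
    fun x => ?_⟩
  obtain ⟨G, h1, h2⟩ := H x
  let G' : ℕ → K := fun s => if s < M then G s else if h : s - M < m then
    F (P ⟨s - M, h⟩) x * F (Q ⟨s - M, h⟩) x else 0
  have hG' : ∀ s < M, G' s = G s := fun s hs => if_pos hs
  refine ⟨G', fun r hr => ?_, ?_⟩
  · by_cases hrM : r < M
    · simp only [if_pos hrM]
      rw [hG' r hrM, h1 r hrM, Pool.Agent.W966.Vg.LF.val_congr (a r) x fun s hs =>
        (hG' s (lt_trans hs hrM)), Pool.Agent.W966.Vg.LF.val_congr (b r) x fun s hs =>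
        (hG' s (lt_trans hs hrM))]
    · have hrm : r - M < m := by omega
      simp only [if_neg hrM, dif_pos hrm]
      rw [tr_val M _ x (not_lt.mp hrM) G G' hG', tr_val M _ x (not_lt.mp hrM) G G' hG', h2, h2]
      simp only [G', if_neg hrM, dif_pos hrm]
  · rintro (v | j)
    · exact (tr_val M _ x (Nat.le_add_right M m) G G' hG').trans (h2 v)
    · simp only [Sum.elim_inr, LF.val, Algebra.algebraMap_self, RingHom.id_apply, Pi.zero_apply,
        zero_mul, Finset.sum_const_zero, zero_add]
      rw [Finset.sum_eq_single (M + (j : ℕ))]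
      · rw [Pi.single_eq_same, one_mul]
        have h3 : ¬ (M + (j : ℕ) < M) := by omega
        have h4 : M + (j : ℕ) - M < m := by have := j.2; omega
        simp only [G', if_neg h3, dif_pos h4]
        have h5 : (⟨M + (j : ℕ) - M, h4⟩ : Fin m) = j := Fin.ext (by simp)
        rw [h5]
      · intro s _ hs
        rw [Pi.single_eq_of_ne hs, zero_mul]
      · intro h3
        exact absurd (Finset.mem_range.mpr (by have := j.2; omega)) h3

/-- Linear combinations. -/
lemma Cm.lin [Fintype V] {M : ℕ} {F : V → (ι → K) → K} (h : Cm M F) (A : W → (ι → K) → K)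
    (hA : ∀ w, IsAff (A w)) (c : W → V → K) : Cm M fun w x => A w x + ∑ v, c w v * F v x := by
  obtain ⟨a, b, o, H⟩ := h
  choose φ hφ0 hφ using fun w => (hA w).lf
  refine ⟨a, b, fun w => ⟨(φ w).c + ∑ v, c w v * (o v).c, fun i => (φ w).x i + ∑ v, c w v * (o v).x i,
    fun s => ∑ v, c w v * (o v).r s⟩, fun x => ?_⟩
  obtain ⟨G, h1, h2⟩ := H x
  refine ⟨G, h1, fun w => ?_⟩
  have h3 := hφ w x M G
  simp only [← h2, ← h3]
  unfold LF.val
  simp only [hφ0, Algebra.algebraMap_self, RingHom.id_apply, Pi.zero_apply, zero_mul,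
    Finset.sum_const_zero, add_zero, add_mul, Finset.sum_add_distrib, mul_add, Finset.mul_sum,
    Finset.sum_mul]
  rw [Finset.sum_comm (s := (Finset.univ : Finset ι)), Finset.sum_comm (s := Finset.range M)]
  simp only [mul_assoc]
  ring

/-- Families with affine functions. -/
lemma Cm.withAff [Fintype V] {M : ℕ} {F : V → (ι → K) → K} (h : Cm M F) (A : W → (ι → K) → K)
    (hA : ∀ w, IsAff (A w)) : Cm M (Sum.elim F A) := by
  classical
  refine (h.lin (W := V ⊕ W) (Sum.elim (fun _ _ => 0) A) (fun w => ?_)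
    (Sum.elim (fun v => Pi.single v 1) fun _ => 0)).congr fun v x => ?_
  · rcases w with w | w
    · exact IsAff.const 0
    · exact hA w
  · rcases v with v | v
    · simp only [Sum.elim_inl, zero_add]
      rw [Finset.sum_eq_single v]
      · rw [Pi.single_eq_same, one_mul]
      · intro u _ hu
        rw [Pi.single_eq_of_ne hu, zero_mul]
      · intro hv; exact absurd (Finset.mem_univ v) hv
    · simp only [Sum.elim_inr, Pi.zero_apply, zero_mul, Finset.sum_const_zero, add_zero]

/-- **Computations give deterministic trees.** -/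
theorem Cm.tree [Fintype V] {M : ℕ} {F : V → (ι → K) → K} (h : Cm M F) : ∃ t : NTree K ι,
    Det t ∧ cost t = M ∧ ∀ x, t.Accepts x M ↔ ∀ v, F v x = 0 := by
  obtain ⟨a, b, o, H⟩ := h
  refine ⟨buildL a b (Finset.univ.toList.map o) 0 M, (det_buildL a b _ M 0).1,
    (det_buildL a b _ M 0).2, fun x => ?_⟩
  obtain ⟨G, h1, h2⟩ := H x
  have key := buildL_acc a b (Finset.univ.toList.map o) x G M h1 M 0 0 (by omega)
    (fun s hs => absurd hs (Nat.not_lt_zero s))
  show (buildL a b (Finset.univ.toList.map o) 0 M).Acc x 0 0 M ↔ _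
  rw [key]
  constructor
  · intro h v
    rw [← h2]
    exact h (o v) (List.mem_map_of_mem (by simp))
  · intro h o' ho'
    obtain ⟨v, -, rfl⟩ := List.mem_map.mp ho'
    rw [h2, h]

end calculus

section matvec

variable {K ι : Type} [Field K] [Fintype ι] {N : ℕ}

/-- A product of an affine matrix and a vector. -/
lemma Cm.mulVec {M : ℕ} {v : (ι → K) → Fin N → K} (h : Cm M fun i x => v x i)
    (X : (ι → K) → Matrix (Fin N) (Fin N) K) (hX : AffM X) (c : Fin N → K) :
    Cm (M + N * N) fun i x => ((X x).mulVec (v x) + c) i := by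
  classical
  have h1 := h.withAff (W := Fin N × Fin N) (fun p x => X x p.1 p.2) fun p => hX p.1 p.2
  have h2 := h1.prod (m := N * N) (fun s => Sum.inr (finProdFinEquiv.symm s))
    (fun s => Sum.inl (finProdFinEquiv.symm s).2)
  refine (h2.lin (W := Fin N) (fun i _ => c i) (fun i => IsAff.const (c i))
    (fun i => Sum.elim (fun _ => 0) fun s => if (finProdFinEquiv.symm s).1 = i then 1 else 0)).congr
    fun i x => ?_
  simp only [Fintype.sum_sum_type, Sum.elim_inl, Sum.elim_inr, zero_mul, Finset.sum_const_zero,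
    zero_add, Pi.add_apply]
  rw [add_comm, Matrix.mulVec, dotProduct]
  congr 1
  rw [← Equiv.sum_comp finProdFinEquiv, Fintype.sum_prod_type]
  simp only [Equiv.symm_apply_apply]
  symm
  rw [Finset.sum_eq_single i]
  · simp
  · intro j _ hj
    simp [hj]
  · intro hi; exact absurd (Finset.mem_univ i) hi

end matvec

section matmul

variable {ι : Type} [Fintype ι] {N : ℕ}

/-- A product of two matrices. -/
lemma Cm.matMul {r M : ℕ} (hr : HasRank N r) {F : (ι → ℂ) → Matrix (Fin N) (Fin N) ℂ}
    (h : Cm M fun p : Fin N × Fin N => fun x => F x p.1 p.2)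
    (X : (ι → ℂ) → Matrix (Fin N) (Fin N) ℂ) (hX : AffM X) (c : Matrix (Fin N) (Fin N) ℂ) :
    Cm (M + r) fun (p : Fin N × Fin N) x => (X x * F x + c) p.1 p.2 := by
  classical
  obtain ⟨α, β, γ, hm⟩ := mul_entry hr
  -- the factors
  have h1 : Cm M (Sum.elim (fun (t : Fin r) (x : ι → ℂ) => ∑ p, ∑ q, β t p q * F x p q)
      fun (t : Fin r) x => ∑ p, ∑ q, α t p q * X x p q) := by
    refine Cm.withAff ((h.lin (W := Fin r) (fun _ _ => 0) (fun _ => IsAff.const 0)
      fun t p => β t p.1 p.2).congr fun t x => ?_) _ fun t => ?_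
    · rw [zero_add, Fintype.sum_prod_type]
    · exact IsAff.sum _ fun p => IsAff.sum _ fun q => (hX p q).smul _
  have h2 := h1.prod (m := r) (fun t => Sum.inr t) (fun t => Sum.inl t)
  refine (h2.lin (W := Fin N × Fin N) (fun p _ => c p.1 p.2) (fun p => IsAff.const _)
    (fun p => Sum.elim (fun _ => 0) fun t => γ t p.2 p.1)).congr fun p x => ?_
  simp only [Fintype.sum_sum_type, Sum.elim_inl, Sum.elim_inr, zero_mul, Finset.sum_const_zero,
    zero_add, Matrix.add_apply]
  rw [hm, add_comm]

end matmul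

end Pool.Agent.Q140.EQN
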