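import Pool.Agent.Q140.EQN.Lower

/-!
# The exponents for polynomial equations
-/

set_option autoImplicit false

namespace Pool.Agent.Q140.EQN

open Pool.Agent.W966.Vg Pool.Agent.Q140.LIN Pool.Agent.H515R2.MMR Polynomial
  Pool.Agent.Q140.VFY Pool.Agent.Q140.HYP

theorem expo_eq' {κ : ℕ → Type} [∀ N, Fintype (κ N)] (S : ∀ N, Set (κ N → ℂ)) (d c : ℕ)
    (lower : ∀ N n : ℕ, 0 < n → d * n ≤ N → ∀ (t : NTree ℂ (κ N)) (L : ℕ),
      (∀ x, t.Accepts x L ↔ x ∈ S N) → (n : ℝ) ^ omega ≤ 2 * L)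
    (upper : ∀ N, ∃ (L : ℕ) (t : NTree ℂ (κ N)), (∀ x, t.Accepts x L ↔ x ∈ S N) ∧
      L ≤ c * rk N) :
    expo S = omega := by
  have hsub : {τ : ℝ | ∃ C : ℝ, ∀ n : ℕ, (rk n : ℝ) ≤ C * (n : ℝ) ^ τ} ⊆
      {τ : ℝ | ∃ c : ℝ, ∀ N : ℕ, ∃ (L : ℕ) (t : NTree ℂ (κ N)),
        (∀ x, t.Accepts x L ↔ x ∈ S N) ∧ (L : ℝ) ≤ c * (N : ℝ) ^ τ} := by
    rintro τ ⟨C, hC⟩
    refine ⟨c * C, fun n => ?_⟩
    obtain ⟨L, t, ht, hL⟩ := upper n
    refine ⟨L, t, ht, ?_⟩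
    have h1 : (L : ℝ) ≤ c * rk n := by exact_mod_cast hL
    calc (L : ℝ) ≤ c * rk n := h1
      _ ≤ c * (C * (n : ℝ) ^ τ) := mul_le_mul_of_nonneg_left (hC n) (Nat.cast_nonneg c)
      _ = _ := by ring
  have hlow : ∀ τ ∈ {τ : ℝ | ∃ c : ℝ, ∀ N : ℕ, ∃ (L : ℕ) (t : NTree ℂ (κ N)),
      (∀ x, t.Accepts x L ↔ x ∈ S N) ∧ (L : ℝ) ≤ c * (N : ℝ) ^ τ}, omega ≤ τ := by
    rintro τ ⟨c, hc⟩
    have key : ∀ n : ℕ, 0 < n → (n : ℝ) ^ omega ≤ 2 * c * (d : ℝ) ^ τ * (n : ℝ) ^ τ + 0 := by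
      intro n hn
      obtain ⟨L, t, h1, h2⟩ := hc (d * n)
      have h3 := lower (d * n) n hn le_rfl t L h1
      rw [Nat.cast_mul, Real.mul_rpow (Nat.cast_nonneg d) (Nat.cast_nonneg n)] at h2
      calc (n : ℝ) ^ omega ≤ 2 * L := h3
        _ ≤ 2 * (c * ((d : ℝ) ^ τ * (n : ℝ) ^ τ)) := by linarith
        _ = _ := by ring
    rcases le_or_gt 0 τ with hτ | hτ
    · exact omega_le_of_bound hτ fun N => ⟨N + 1, Nat.le_succ N, key (N + 1) (Nat.succ_pos N)⟩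
    · have h0 : omega ≤ 0 := omega_le_of_bound le_rfl (c₁ := |2 * c * (d : ℝ) ^ τ|) (c₂ := 0)
        fun N => by
        refine ⟨N + 1, Nat.le_succ N, (key (N + 1) (Nat.succ_pos N)).trans ?_⟩
        have h1 : (1 : ℝ) ≤ ((N + 1 : ℕ) : ℝ) := by exact_mod_cast Nat.succ_pos N
        have h2 : (((N + 1 : ℕ) : ℝ)) ^ τ ≤ 1 := Real.rpow_le_one_of_one_le_of_nonpos h1 hτ.le
        have h3 : 0 ≤ (((N + 1 : ℕ) : ℝ)) ^ τ := by positivity
        rw [Real.rpow_zero]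
        have h4 : 2 * c * (d : ℝ) ^ τ * (((N + 1 : ℕ) : ℝ)) ^ τ ≤ |2 * c * (d : ℝ) ^ τ| * 1 :=
          (mul_le_mul_of_nonneg_right (le_abs_self _) h3).trans
            (mul_le_mul_of_nonneg_left h2 (abs_nonneg _))
        linarith
      have := Pool.Agent.Y538.Par.two_le_omega
      linarith
  refine le_antisymm ?_ ?_
  · exact csInf_le_csInf ⟨omega, hlow⟩ omega_set_nonempty hsub
  · exact le_csInf (omega_set_nonempty.mono hsub) hlow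

/-- Deterministic trees for polynomial equations. -/
theorem poly_upper (p : ℂ[X]) (N : ℕ) : ∃ t : NTree ℂ (Fin N × Fin N),
    Det t ∧ cost t = (p.natDegree - 1) * rk N ∧
      ∀ x, t.Accepts x ((p.natDegree - 1) * rk N) ↔ aeval (one x) p = 0 := by
  obtain ⟨t, h1, h2, h3⟩ := (horner_mat (hasRank_rk N) (p.natDegree - 1) p (by omega)).tree
  refine ⟨t, h1, h2, fun x => ?_⟩
  rw [h3]
  exact ⟨fun h => Matrix.ext fun i j => h (i, j), fun h v => by rw [h]; rfl⟩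

theorem poly_expo (p : ℂ[X]) (hp : 2 ≤ p.natDegree) :
    expo (κ := fun N => Fin N × Fin N) (fun _ => {x | aeval (one x) p = 0}) = omega := by
  refine expo_eq' _ (2 * p.natDegree) (p.natDegree - 1) (fun N n hn h t L ht =>
    poly_lower p hp hn h t L ht) fun N => ?_
  obtain ⟨t, -, -, h⟩ := poly_upper p N
  exact ⟨_, t, h, le_rfl⟩

end Pool.Agent.Q140.EQN
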