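import Pool.Agent.Q140.EQN.Cm

/-!
# Evaluation of a polynomial at a matrix
-/

set_option autoImplicit false

namespace Pool.Agent.Q140.EQN

open Pool.Agent.W966.Vg Pool.Agent.Q140.LIN Pool.Agent.H515R2.MMR Polynomial

section horner

variable {K : Type} [Field K] {N : ℕ}

lemma aeval_divX (p : K[X]) (A : Matrix (Fin N) (Fin N) K) :
    aeval A p = A * aeval A p.divX + p.coeff 0 • (1 : Matrix (Fin N) (Fin N) K) := by
  conv_lhs => rw [← Polynomial.divX_mul_X_add p, mul_comm]
  rw [map_add, map_mul, aeval_X, aeval_C, Algebra.algebraMap_eq_smul_one]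

lemma aeval_deg_one (p : K[X]) (hp : p.natDegree ≤ 1) (A : Matrix (Fin N) (Fin N) K) :
    aeval A p = p.coeff 1 • A + p.coeff 0 • (1 : Matrix (Fin N) (Fin N) K) := by
  have h := Polynomial.eq_X_add_C_of_natDegree_le_one hp
  conv_lhs => rw [h]
  rw [map_add, map_mul, aeval_X, aeval_C, aeval_C, Algebra.algebraMap_eq_smul_one,
    Algebra.algebraMap_eq_smul_one, smul_mul_assoc, one_mul]

lemma aff_one' : AffM (K := K) (ι := Fin N × Fin N) one := fun _ _ => IsAff.coord _

/-- `p(A) r`. -/
lemma horner_vec (r : Fin N → K) : ∀ (d : ℕ) (p : K[X]), p.natDegree ≤ d + 1 →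
    Cm (d * (N * N)) fun (i : Fin N) (x : Fin N × Fin N → K) => ((aeval (one x) p).mulVec r) i := by
  intro d
  induction d with
  | zero =>
    intro p hp
    rw [zero_mul]
    refine Cm.aff fun i => ?_
    have h1 : (fun x : Fin N × Fin N → K => ((aeval (one x) p).mulVec r) i) =
        fun x => p.coeff 0 * r i + ∑ j, (p.coeff 1 * r j) * one x i j := by
      funext x
      rw [aeval_deg_one p hp, Matrix.add_mulVec, Pi.add_apply, Matrix.smul_mulVec,
        Matrix.smul_mulVec, Matrix.one_mulVec, Pi.smul_apply, Pi.smul_apply, smul_eq_mul,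
        smul_eq_mul, Matrix.mulVec, dotProduct, Finset.mul_sum, add_comm]
      congr 1
      refine Finset.sum_congr rfl fun j _ => ?_
      ring
    rw [h1]
    exact (IsAff.const _).add (IsAff.sum _ fun j => (aff_one' i j).smul _)
  | succ d ih =>
    intro p hp
    have h1 := ih p.divX (by
      rw [Polynomial.natDegree_divX_eq_natDegree_tsub_one]
      omega)
    have h2 := Cm.mulVec (v := fun x => (aeval (one x) p.divX).mulVec r) h1 one aff_one'
      (p.coeff 0 • r)
    rw [show d * (N * N) + N * N = (d + 1) * (N * N) by ring] at h2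
    refine h2.congr fun i x => ?_
    rw [aeval_divX p, Matrix.add_mulVec, Matrix.mulVec_mulVec, Matrix.smul_mulVec,
      Matrix.one_mulVec]

/-- `p(A)`. -/
lemma horner_mat {N r : ℕ} (hr : HasRank N r) : ∀ (d : ℕ) (p : ℂ[X]), p.natDegree ≤ d + 1 →
    Cm (d * r) fun (s : Fin N × Fin N) (x : Fin N × Fin N → ℂ) => (aeval (one x) p) s.1 s.2 := by
  intro d
  induction d with
  | zero =>
    intro p hp
    rw [zero_mul]
    refine Cm.aff fun s => ?_
    simp only [aeval_deg_one p hp, Matrix.add_apply]
    exact IsAff.add ((aff_one' s.1 s.2).smul _) (IsAff.const _)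
  | succ d ih =>
    intro p hp
    have h1 := ih p.divX (by
      rw [Polynomial.natDegree_divX_eq_natDegree_tsub_one]
      omega)
    have h2 := Cm.matMul hr (F := fun x => aeval (one x) p.divX) h1 one aff_one'
      (p.coeff 0 • (1 : Matrix (Fin N) (Fin N) ℂ))
    rw [show d * r + r = (d + 1) * r by ring] at h2
    refine h2.congr fun s x => ?_
    rw [aeval_divX p]

end horner

section freivalds

variable {K : Type} [Field K] {N : ℕ}

/-- the vector with entries `0`, `1` -/
def bv (K : Type) [Field K] {N : ℕ} (r : Fin N → Bool) : Fin N → K := fun i => if r i then 1 else 0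

/-- **Freivalds.** -/
theorem freivalds (D : Matrix (Fin N) (Fin N) K) (hD : D ≠ 0) :
    2 * Nat.card {r : Fin N → Bool // D.mulVec (bv K r) = 0} ≤ 2 ^ N := by
  classical
  obtain ⟨i, j, hij⟩ : ∃ i j, D i j ≠ 0 := by
    by_contra hcon
    push Not at hcon
    exact hD (Matrix.ext hcon)
  let fl : (Fin N → Bool) → Fin N → Bool := fun r => Function.update r j (!(r j))
  have hinv : Function.Involutive fl := fun r => by
    simp only [fl, Function.update_self, Bool.not_not, Function.update_idem,
      Function.update_eq_self]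
  let S : Finset (Fin N → Bool) := Finset.univ.filter fun r => D.mulVec (bv K r) = 0
  have hdisj : Disjoint S (S.image fl) := by
    rw [Finset.disjoint_left]
    intro r hr hr'
    obtain ⟨r', h1, h2⟩ := Finset.mem_image.mp hr'
    have h3 := (Finset.mem_filter.mp hr).2
    have h4 := (Finset.mem_filter.mp h1).2
    have h5 : D.mulVec (bv K r - bv K r') = 0 := by rw [Matrix.mulVec_sub, h3, h4, sub_zero]
    have h6 : bv K r - bv K r' = Pi.single j (bv K r j - bv K r' j) := by
      funext k
      by_cases hk : k = j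
      · subst hk
        rw [Pi.single_eq_same, Pi.sub_apply]
      · rw [Pi.single_eq_of_ne hk, Pi.sub_apply, ← h2]
        simp only [bv, fl, Function.update_of_ne hk, sub_self]
    have h7 := congrFun h5 i
    rw [h6, Matrix.mulVec_single] at h7
    simp only [Pi.smul_apply, Pi.zero_apply, Matrix.col_apply, MulOpposite.smul_eq_mul_unop,
      MulOpposite.unop_op, mul_eq_zero] at h7
    rcases h7 with h7 | h7
    · exact hij h7
    · rw [← h2] at h7
      simp only [bv, fl, Function.update_self] at h7
      cases h8 : r' j <;> simp [h8] at h7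
  have h1 : S.card + (S.image fl).card ≤ 2 ^ N := by
    rw [← Finset.card_union_of_disjoint hdisj]
    refine (Finset.card_le_univ _).trans (le_of_eq ?_)
    rw [Fintype.card_fun, Fintype.card_bool, Fintype.card_fin]
  rw [Finset.card_image_of_injective _ hinv.injective] at h1
  rw [Nat.subtype_card S fun r => by simp [S]]
  omega

/-- **The randomised test.** -/
theorem random_test (p : K[X]) (N : ℕ) :
    ∃ next : (Fin N → Bool) → NTree K (Fin N × Fin N),
      (∀ r, Det (next r) ∧ cost (next r) = (p.natDegree - 1) * N ^ 2) ∧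
      ∀ x, (aeval (one x) p = 0 → ∀ r, (next r).Accepts x ((p.natDegree - 1) * N ^ 2)) ∧
        (aeval (one x) p ≠ 0 →
          2 * Nat.card {r // (next r).Accepts x ((p.natDegree - 1) * N ^ 2)} ≤ 2 ^ N) := by
  classical
  have h1 := fun r : Fin N → Bool => (horner_vec (bv K r) (p.natDegree - 1) p (by omega)).tree
  choose next h2 h3 h4 using h1
  have e : (p.natDegree - 1) * (N * N) = (p.natDegree - 1) * N ^ 2 := by ring
  rw [e] at h4 h3
  refine ⟨next, fun r => ⟨h2 r, h3 r⟩, fun x => ⟨fun hx r => ?_, fun hx => ?_⟩⟩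
  · rw [h4]
    intro v
    rw [hx, Matrix.zero_mulVec, Pi.zero_apply]
  · have h5 : ∀ r, (next r).Accepts x ((p.natDegree - 1) * N ^ 2) ↔
        (aeval (one x) p).mulVec (bv K r) = 0 := fun r => by
      rw [h4]
      exact ⟨fun h => funext h, fun h v => congrFun h v⟩
    have h6 := freivalds _ hx
    simp only [h5]
    exact h6

end freivalds

end Pool.Agent.Q140.EQN
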