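import Pool.Agent.Q140.EQN.Horner

/-!
# Polynomial equations for matrices: affine sections
-/

set_option autoImplicit false

namespace Pool.Agent.Q140.EQN

open Pool.Agent.W966.Vg Pool.Agent.Q140.LIN Pool.Agent.H515R2.MMR Polynomial
  Pool.Agent.Q140.VFY Pool.Agent.Q140.HYP

section general

variable {K : Type} [Field K] {J : Type} [Fintype J] [DecidableEq J]

lemma aeval_mul_of_eig {X Z : Matrix J J K} {lam : K} (h : X * Z = lam • Z) (q : K[X]) :
    aeval X q * Z = q.eval lam • Z := by
  induction q using Polynomial.induction_on' with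
  | add p q hp hq => rw [map_add, add_mul, hp, hq, eval_add, add_smul]
  | monomial n c =>
    rw [aeval_monomial, eval_monomial, Algebra.algebraMap_eq_smul_one, smul_mul_assoc, one_mul,
      smul_mul_assoc, mul_smul]
    congr 1
    induction n with
    | zero => rw [pow_zero, pow_zero, one_mul, one_smul]
    | succ n ih => rw [pow_succ, mul_assoc, h, mul_smul_comm, ih, smul_smul, pow_succ, mul_comm]

lemma aeval_submatrix {J' : Type} [Fintype J'] [DecidableEq J'] (e : J' ≃ J) (X : Matrix J J K)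
    (p : K[X]) : aeval (X.submatrix e e) p = (aeval X p).submatrix e e := by
  have h := Polynomial.aeval_algHom_apply (Matrix.reindexAlgEquiv K K e.symm).toAlgHom X p
  have h1 : ∀ M : Matrix J J K, (Matrix.reindexAlgEquiv K K e.symm).toAlgHom M =
      M.submatrix e e := fun M => rfl
  rwa [h1, h1] at h

end general

section caseA

variable {K : Type} [Field K] {n b : ℕ}

/-- block matrices with zeros -/
def U (D A B C : Matrix (Fin n) (Fin n) K) : Matrix (J n b) (J n b) K :=
  Matrix.fromBlocks (Matrix.fromBlocks 0 A 0 D) (Matrix.fromBlocks C 0 B 0) 0 0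

lemma U_mul (D A B C D' A' B' C' : Matrix (Fin n) (Fin n) K) :
    (U D A B C : Matrix (J n b) (J n b) K) * U D' A' B' C' =
      U (D * D') (A * D') (D * B') (A * B') := by
  unfold U
  rw [Matrix.fromBlocks_multiply, Matrix.fromBlocks_multiply, Matrix.fromBlocks_multiply]
  simp only [Matrix.mul_zero, Matrix.zero_mul, add_zero, zero_add]

lemma U_sub_smul (c : K) (D A B C D' A' B' C' : Matrix (Fin n) (Fin n) K) :
    (U D A B C : Matrix (J n b) (J n b) K) - c • U D' A' B' C' =
      U (D - c • D') (A - c • A') (B - c • B') (C - c • C') := by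
  unfold U
  rw [Matrix.fromBlocks_smul, Matrix.fromBlocks_smul, Matrix.fromBlocks_smul, sub_eq_add_neg,
    Matrix.fromBlocks_neg, Matrix.fromBlocks_neg, Matrix.fromBlocks_neg,
    Matrix.fromBlocks_add, Matrix.fromBlocks_add, Matrix.fromBlocks_add]
  simp only [smul_zero, neg_zero, add_zero, ← sub_eq_add_neg]

lemma U_zero_iff {C : Matrix (Fin n) (Fin n) K} :
    (U 0 0 0 C : Matrix (J n b) (J n b) K) = 0 ↔ C = 0 := by
  constructor
  · intro h
    ext i j
    exact congrFun (congrFun h (Sum.inl (Sum.inl i))) (Sum.inr (Sum.inl j))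
  · rintro rfl
    unfold U
    rw [Matrix.fromBlocks_zero, Matrix.fromBlocks_zero, Matrix.fromBlocks_zero]

lemma AffM.U {ι : Type} [Fintype ι] {D A B C : (ι → K) → Matrix (Fin n) (Fin n) K} (hD : AffM D)
    (hA : AffM A) (hB : AffM B) (hC : AffM C) :
    AffM fun x => (U (D x) (A x) (B x) (C x) : Matrix (J n b) (J n b) K) :=
  ((AffM.const 0).fromBlocks hA (AffM.const 0) hD).fromBlocks
    (hC.fromBlocks (AffM.const 0) hB (AffM.const 0)) (AffM.const 0) (AffM.const 0)

/-- **Two roots.** -/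
lemma caseA_iff {lam mu : K} (hne : lam ≠ mu) {q : K[X]} (hq : q.eval lam ≠ 0)
    (A B C : Matrix (Fin n) (Fin n) K) :
    aeval (lam • (1 : Matrix (J n b) (J n b) K) + U ((mu - lam) • 1) A B ((mu - lam)⁻¹ • C))
      ((X - Polynomial.C lam) * (X - Polynomial.C mu) * q) = 0 ↔ C = A * B := by
  have hd : mu - lam ≠ 0 := sub_ne_zero.mpr hne.symm
  set Y : Matrix (J n b) (J n b) K := U ((mu - lam) • 1) A B ((mu - lam)⁻¹ • C) with hY
  have h1 : Y * Y - (mu - lam) • Y = U 0 0 0 (A * B - C) := by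
    rw [hY, U_mul, U_sub_smul, smul_smul, smul_smul, mul_inv_cancel₀ hd, one_smul,
      smul_mul_smul_comm, Matrix.one_mul, sub_self, Matrix.mul_smul, Matrix.mul_one, sub_self,
      Matrix.smul_mul, Matrix.one_mul, sub_self]
  have h2 : Y * U 0 0 0 (A * B - C) = 0 := by
    rw [hY, U_mul]
    simp only [Matrix.mul_zero]
    exact U_zero_iff.mpr rfl
  have h3 : aeval (lam • (1 : Matrix (J n b) (J n b) K) + Y)
      ((X - Polynomial.C lam) * (X - Polynomial.C mu)) = U 0 0 0 (A * B - C) := by
    rw [← h1, map_mul, map_sub, map_sub, aeval_X, aeval_C, aeval_C,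
      Algebra.algebraMap_eq_smul_one, Algebra.algebraMap_eq_smul_one, add_sub_cancel_left]
    rw [show lam • (1 : Matrix (J n b) (J n b) K) + Y - mu • 1 = Y - (mu - lam) • 1 by
      rw [sub_smul]; abel]
    rw [mul_sub, mul_smul_comm, mul_one]
  rw [mul_comm _ q, map_mul, h3, aeval_mul_of_eig (lam := lam) (by
    rw [add_mul, smul_mul_assoc, one_mul, h2, add_zero]), smul_eq_zero, U_zero_iff, sub_eq_zero]
  constructor
  · rintro (h | h)
    · exact absurd h hq
    · exact h.symm
  · intro h; exact Or.inr h.symm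

end caseA

section caseB

variable {K : Type} [Field K] {n b m : ℕ}

/-- the nilpotent shift -/
def sh (K : Type) [Field K] (m n : ℕ) :
    Matrix (Fin m × (Fin n ⊕ Fin n)) (Fin m × (Fin n ⊕ Fin n)) K :=
  Matrix.of fun p q => if (p.1 : ℕ) + 1 = q.1 ∧ p.2 = q.2 then 1 else 0

lemma sh_pow (k : ℕ) : sh K m n ^ k =
    Matrix.of fun p q => if (p.1 : ℕ) + k = q.1 ∧ p.2 = q.2 then 1 else 0 := by
  induction k with
  | zero =>
    rw [pow_zero]
    ext p q
    rw [Matrix.one_apply, Matrix.of_apply]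
    refine if_congr ?_ rfl rfl
    rw [Prod.ext_iff, Fin.ext_iff, add_zero]
  | succ k ih =>
    rw [pow_succ, ih]
    ext p q
    rw [Matrix.mul_apply, Matrix.of_apply]
    by_cases h : (p.1 : ℕ) + (k + 1) = q.1 ∧ p.2 = q.2
    · have h1 : (p.1 : ℕ) + k < m := by have := q.1.2; omega
      rw [if_pos h, Finset.sum_eq_single (⟨(p.1 : ℕ) + k, h1⟩, p.2)]
      · simp only [Matrix.of_apply, sh, and_self, if_true, one_mul]
        rw [if_pos ⟨by omega, h.2⟩]
      · rintro ⟨u, v⟩ _ hne
        simp only [Matrix.of_apply]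
        rw [if_neg, zero_mul]
        rintro ⟨h2, h3⟩
        exact hne (Prod.ext (Fin.ext h2.symm) h3.symm)
      · intro h2; exact absurd (Finset.mem_univ _) h2
    · rw [if_neg h]
      refine Finset.sum_eq_zero fun u _ => ?_
      simp only [Matrix.of_apply, sh]
      by_cases h2 : (p.1 : ℕ) + k = u.1 ∧ p.2 = u.2
      · rw [if_pos h2, one_mul, if_neg (fun h3 => h ⟨by omega, h2.2.trans h3.2⟩)]
      · rw [if_neg h2, zero_mul]

lemma sh_pow_eq_zero {k : ℕ} (h : m ≤ k) : sh K m n ^ k = 0 := by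
  rw [sh_pow]
  ext p q
  rw [Matrix.of_apply, Matrix.zero_apply, if_neg]
  rintro ⟨h1, -⟩
  have := q.1.2
  omega

/-- the first row -/
def uu (m : ℕ) (A C : Matrix (Fin n) (Fin n) K) : Matrix (Fin n) (Fin m × (Fin n ⊕ Fin n)) K :=
  Matrix.of fun i p => if (p.1 : ℕ) = 0 then Sum.elim (A i) (fun j => - C i j) p.2 else 0

/-- the last column -/
def ww (m : ℕ) (B : Matrix (Fin n) (Fin n) K) : Matrix (Fin m × (Fin n ⊕ Fin n)) (Fin n) K :=
  Matrix.of fun p j => if (p.1 : ℕ) + 1 = m then
    Sum.elim (fun i => B i j) (fun i => (1 : Matrix (Fin n) (Fin n) K) i j) p.2 else 0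

lemma uu_sh_ww (hm : 0 < m) (A B C : Matrix (Fin n) (Fin n) K) :
    uu m A C * sh K m n ^ (m - 1) * ww m B = A * B - C := by
  ext i j
  have h1 : ∀ q : Fin m × (Fin n ⊕ Fin n), (uu m A C * sh K m n ^ (m - 1)) i q =
      if (q.1 : ℕ) + 1 = m then Sum.elim (A i) (fun j => - C i j) q.2 else 0 := by
    intro q
    rw [Matrix.mul_apply, sh_pow, Finset.sum_eq_single (⟨0, hm⟩, q.2)]
    · simp only [uu, Matrix.of_apply, if_true, zero_add, and_true]
      by_cases h : (q.1 : ℕ) + 1 = m
      · rw [if_pos (show m - 1 = (q.1 : ℕ) by omega), if_pos h, mul_one]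
      · rw [if_neg (show ¬ m - 1 = (q.1 : ℕ) by omega), if_neg h, mul_zero]
    · rintro ⟨u, v⟩ _ hne
      simp only [uu, Matrix.of_apply]
      by_cases hu : (u : ℕ) = 0
      · rw [if_neg (show ¬ ((u : ℕ) + (m - 1) = q.1 ∧ v = q.2) from fun h =>
          hne (Prod.ext (Fin.ext hu) h.2)), mul_zero]
      · rw [if_neg hu, zero_mul]
    · intro h2; exact absurd (Finset.mem_univ _) h2
  have hlast : m - 1 < m := by omega
  rw [Matrix.mul_apply]
  simp only [h1, ww, Matrix.of_apply]
  rw [Fintype.sum_prod_type, Finset.sum_eq_single (⟨m - 1, hlast⟩ : Fin m)]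
  · have h2 : m - 1 + 1 = m := by omega
    simp only [h2, if_true, Fintype.sum_sum_type, Sum.elim_inl, Sum.elim_inr]
    rw [Matrix.sub_apply, Matrix.mul_apply, sub_eq_add_neg]
    congr 1
    rw [Finset.sum_eq_single j]
    · rw [Matrix.one_apply_eq, mul_one]
    · intro k _ hk
      rw [Matrix.one_apply_ne hk, mul_zero]
    · intro h3; exact absurd (Finset.mem_univ _) h3
  · intro u _ hu
    refine Finset.sum_eq_zero fun v _ => ?_
    rw [if_neg (show ¬ (u : ℕ) + 1 = m from fun h => hu (Fin.ext (by simp; omega))), zero_mul]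
  · intro h3; exact absurd (Finset.mem_univ _) h3

/-- the index set -/
abbrev JB (n m b : ℕ) : Type := (Fin n ⊕ (Fin m × (Fin n ⊕ Fin n))) ⊕ (Fin n ⊕ Fin b)

/-- the nilpotent block matrices -/
def VV (m b : ℕ) (A B C : Matrix (Fin n) (Fin n) K) : Matrix (JB n m b) (JB n m b) K :=
  Matrix.fromBlocks (Matrix.fromBlocks 0 (uu m A C) 0 (sh K m n))
    (Matrix.fromBlocks 0 0 (ww m B) 0) 0 0

lemma VV_pow (A B C : Matrix (Fin n) (Fin n) K) (k : ℕ) : VV m b A B C ^ (k + 2) =
    Matrix.fromBlocks (Matrix.fromBlocks 0 (uu m A C * sh K m n ^ (k + 1)) 0 (sh K m n ^ (k + 2)))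
      (Matrix.fromBlocks (uu m A C * sh K m n ^ k * ww m B) 0 (sh K m n ^ (k + 1) * ww m B) 0)
      0 0 := by
  induction k with
  | zero =>
    rw [zero_add, pow_two]
    unfold VV
    rw [Matrix.fromBlocks_multiply, Matrix.fromBlocks_multiply, Matrix.fromBlocks_multiply]
    simp only [Matrix.mul_zero, Matrix.zero_mul, add_zero, zero_add, pow_zero, pow_one,
      Matrix.mul_one, pow_two]
  | succ k ih =>
    rw [pow_succ, ih]
    unfold VV
    rw [Matrix.fromBlocks_multiply, Matrix.fromBlocks_multiply, Matrix.fromBlocks_multiply]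
    simp only [Matrix.mul_zero, Matrix.zero_mul, add_zero, zero_add, Matrix.mul_assoc, ← pow_succ]

lemma VV_top (hm : 0 < m) (A B C : Matrix (Fin n) (Fin n) K) : VV m b A B C ^ (m + 1) =
    Matrix.fromBlocks 0 (Matrix.fromBlocks (A * B - C) 0 0 0) 0 0 := by
  obtain ⟨k, rfl⟩ : ∃ k, m = k + 1 := ⟨m - 1, by omega⟩
  rw [VV_pow, sh_pow_eq_zero (le_refl (k + 1)), sh_pow_eq_zero (show k + 1 ≤ k + 2 by omega)]
  have h := uu_sh_ww hm A B C
  rw [Nat.add_sub_cancel] at h
  rw [h, Matrix.mul_zero, Matrix.zero_mul, Matrix.fromBlocks_zero]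

lemma VV_above (hm : 0 < m) (A B C : Matrix (Fin n) (Fin n) K) : VV m b A B C ^ (m + 2) = 0 := by
  rw [VV_pow, sh_pow_eq_zero (show m ≤ m + 1 by omega), sh_pow_eq_zero (show m ≤ m + 2 by omega),
    sh_pow_eq_zero (le_refl m)]
  simp only [Matrix.mul_zero, Matrix.zero_mul, Matrix.fromBlocks_zero]

lemma block_zero_iff {C : Matrix (Fin n) (Fin n) K} :
    (Matrix.fromBlocks 0 (Matrix.fromBlocks C 0 0 0) 0 0 : Matrix (JB n m b) (JB n m b) K) = 0 ↔
      C = 0 := by
  constructor
  · intro h
    ext i j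
    exact congrFun (congrFun h (Sum.inl (Sum.inl i))) (Sum.inr (Sum.inl j))
  · rintro rfl
    rw [Matrix.fromBlocks_zero, Matrix.fromBlocks_zero]

/-- **A multiple root.** -/
lemma caseB_iff {lam : K} (hm : 0 < m) {q : K[X]} (hq : q.eval lam ≠ 0)
    (A B C : Matrix (Fin n) (Fin n) K) :
    aeval (lam • (1 : Matrix (JB n m b) (JB n m b) K) + VV m b A B C)
      ((X - Polynomial.C lam) ^ (m + 1) * q) = 0 ↔ C = A * B := by
  rw [mul_comm, map_mul, map_pow, map_sub, aeval_X, aeval_C, Algebra.algebraMap_eq_smul_one,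
    add_sub_cancel_left, aeval_mul_of_eig (lam := lam) (by
    rw [add_mul, smul_mul_assoc, one_mul, ← pow_succ', VV_above hm, add_zero]), VV_top hm,
    smul_eq_zero, block_zero_iff, sub_eq_zero]
  constructor
  · rintro (h | h)
    · exact absurd h hq
    · exact h.symm
  · intro h; exact Or.inr h.symm

end caseB

section lower

variable {K : Type} [Field K] [IsAlgClosed K] [CharZero K] {n N : ℕ}

/-- The two cases. -/
lemma poly_cases {p : K[X]} (hp : 2 ≤ p.natDegree) :
    (∃ (lam mu : K) (q : K[X]), lam ≠ mu ∧ q.eval lam ≠ 0 ∧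
      p = (X - Polynomial.C lam) * (X - Polynomial.C mu) * q) ∨
    ∃ (lam : K) (m : ℕ) (q : K[X]), 0 < m ∧ m + 1 ≤ p.natDegree ∧ q.eval lam ≠ 0 ∧
      p = (X - Polynomial.C lam) ^ (m + 1) * q := by
  have hp0 : p ≠ 0 := by rintro rfl; simp at hp
  obtain ⟨lam, hlam⟩ := IsAlgClosed.exists_root p (by
    rw [Polynomial.degree_eq_natDegree hp0]
    exact_mod_cast (by omega : p.natDegree ≠ 0))
  obtain ⟨q, hq, hnd⟩ := Polynomial.exists_eq_pow_rootMultiplicity_mul_and_not_dvd p hp0 lam
  have ha : 0 < p.rootMultiplicity lam := (Polynomial.rootMultiplicity_pos hp0).mpr hlam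
  have hqe : q.eval lam ≠ 0 := fun h => hnd (Polynomial.dvd_iff_isRoot.mpr h)
  have hle : p.rootMultiplicity lam ≤ p.natDegree := by
    have h1 := Polynomial.natDegree_le_of_dvd (Polynomial.pow_rootMultiplicity_dvd p lam) hp0
    rwa [Polynomial.natDegree_pow, Polynomial.natDegree_X_sub_C, mul_one] at h1
  rcases Nat.lt_or_ge (p.rootMultiplicity lam) 2 with h | h
  · left
    have h1 : p.rootMultiplicity lam = 1 := by omega
    rw [h1, pow_one] at hq
    have hq0 : q ≠ 0 := by rintro rfl; simp at hqe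
    have hqd : p.natDegree = 1 + q.natDegree := by
      conv_lhs => rw [hq]
      rw [Polynomial.natDegree_mul (Polynomial.X_sub_C_ne_zero lam) hq0,
        Polynomial.natDegree_X_sub_C]
    obtain ⟨mu, hmu⟩ := IsAlgClosed.exists_root q (by
      rw [Polynomial.degree_eq_natDegree hq0]
      exact_mod_cast (by omega : q.natDegree ≠ 0))
    obtain ⟨q₂, hq₂⟩ := Polynomial.dvd_iff_isRoot.mpr hmu
    refine ⟨lam, mu, q₂, ?_, ?_, by rw [mul_assoc, ← hq₂, ← hq]⟩
    · rintro rfl; exact hqe hmu
    · intro h2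
      apply hqe
      rw [hq₂, eval_mul, h2, mul_zero]
  · right
    refine ⟨lam, p.rootMultiplicity lam - 1, q, by omega, by omega, hqe, ?_⟩
    rw [Nat.sub_add_cancel (by omega)]
    exact hq

omit [IsAlgClosed K] [CharZero K] in
lemma AffM.add' {ι I J : Type} [Fintype ι] {F G : (ι → K) → Matrix I J K} (hF : AffM F)
    (hG : AffM G) : AffM fun x => F x + G x := fun i j => (hF i j).add (hG i j)

/-- **Polynomial equations.** -/
theorem poly_lower (p : K[X]) (hp : 2 ≤ p.natDegree) (hn : 0 < n) (h : 2 * p.natDegree * n ≤ N)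
    (t : NTree K (Fin N × Fin N)) (L : ℕ) (ht : ∀ x, t.Accepts x L ↔ aeval (one x) p = 0) :
    (n : ℝ) ^ omega ≤ 2 * L := by
  rcases poly_cases hp with ⟨lam, mu, q, hne, hq, hpq⟩ | ⟨lam, m, q, hm, hmd, hq, hpq⟩
  · have h3 : 3 * n ≤ N := by nlinarith
    let e : Fin N ≃ J n (N - 3 * n) := (rl h3).symm
    refine single_bound hn (fun Y => aeval Y p = 0)
      (fun x => (lam • (1 : Matrix (J n (N - 3 * n)) (J n (N - 3 * n)) K) +
        U ((mu - lam) • 1) (mA x) (mB x) ((mu - lam)⁻¹ • mC x)).submatrix e e)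
      ((AffM.add' (AffM.const _) (AffM.U (AffM.const _) aff_mA aff_mB
        (aff_mC.smul _))).submatrix e e) (fun x => ?_) t L ht
    rw [aeval_submatrix, ← caseA_iff hne hq (mA x) (mB x) (mC x) (b := N - 3 * n), ← hpq]
    constructor
    · intro h4
      have := congrArg (fun M : Matrix (Fin N) (Fin N) K => M.submatrix e.symm e.symm) h4
      simpa using this
    · intro h4
      rw [h4]; rfl
  · have h3 : n + m * (n + n) + n ≤ N := by
      have h4 : (m + 1) * n ≤ p.natDegree * n := Nat.mul_le_mul_right n hmd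
      nlinarith
    have hc : Fintype.card (JB n m (N - (n + m * (n + n) + n))) = Fintype.card (Fin N) := by
      simp only [Fintype.card_sum, Fintype.card_prod, Fintype.card_fin]
      omega
    let e : Fin N ≃ JB n m (N - (n + m * (n + n) + n)) := (Fintype.equivOfCardEq hc).symm
    have haff : AffM fun x : In3 n → K => VV m (N - (n + m * (n + n) + n)) (mA x) (mB x) (mC x) := by
      refine AffM.fromBlocks (AffM.fromBlocks (AffM.const 0) (fun i s => ?_) (AffM.const 0)
        (AffM.const _)) (AffM.fromBlocks (AffM.const 0) (AffM.const 0) (fun s i => ?_)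
        (AffM.const 0)) (AffM.const 0) (AffM.const 0)
      · simp only [uu, Matrix.of_apply]
        by_cases hs : (s.1 : ℕ) = 0
        · simp only [if_pos hs]
          rcases s with ⟨s1, s2 | s2⟩
          · exact aff_mA i s2
          · have := (aff_mC (K := K) (n := n) i s2).smul (-1)
            simpa using this
        · simp only [if_neg hs]
          exact IsAff.const 0
      · simp only [ww, Matrix.of_apply]
        by_cases hs : (s.1 : ℕ) + 1 = m
        · simp only [if_pos hs]
          rcases s with ⟨s1, s2 | s2⟩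
          · exact aff_mB s2 i
          · exact IsAff.const _
        · simp only [if_neg hs]
          exact IsAff.const 0
    refine single_bound hn (fun Y => aeval Y p = 0)
      (fun x => (lam • (1 : Matrix (JB n m (N - (n + m * (n + n) + n)))
        (JB n m (N - (n + m * (n + n) + n))) K) +
        VV m (N - (n + m * (n + n) + n)) (mA x) (mB x) (mC x)).submatrix e e)
      ((AffM.add' (AffM.const _) haff).submatrix e e) (fun x => ?_) t L ht
    rw [aeval_submatrix, ← caseB_iff hm hq (mA x) (mB x) (mC x)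
      (b := N - (n + m * (n + n) + n)), ← hpq]
    constructor
    · intro h4
      have := congrArg (fun M : Matrix (Fin N) (Fin N) K => M.submatrix e.symm e.symm) h4
      simpa using this
    · intro h4
      rw [h4]; rfl

end lower

end Pool.Agent.Q140.EQN
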